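import Pool.Agent.H214.Low

/-!
# The metric derivative of a curve of constant Kobayashi speed
-/

set_option autoImplicit false

namespace Pool.Agent.H214.Vis

open Metric Set Filter Topology
open Pool.TH332.DW Pool.TH332.DW.TH416

variable {E : Type*} [NormedAddCommGroup E] [NormedSpace ℂ E] {Ω : Set E}

theorem le_kappa_of_speed (hc : Convex ℝ Ω) (ho : IsOpen Ω) {γ : ℝ → E} {t : ℝ} {v : E}
    (hγ : HasDerivAt γ v t) {L : ℝ} (hz : γ t ∈ Ω)
    (hmem : ∀ᶠ h : ℝ in 𝓝[>] 0, γ (t + h) ∈ Ω)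
    (hk : ∀ᶠ h : ℝ in 𝓝[>] 0, L * h ≤ kob Ω (γ t) (γ (t + h))) :
    L ≤ kappa Ω (γ t) v := by
  have hK := kobFacts hc ho
  obtain ⟨r, hr, hb⟩ := Metric.isOpen_iff.1 ho (γ t) hz
  refine le_csInf (comp_nonempty ho hz v) ?_
  rintro α ⟨hα, f, hf, hfm, hf0, hfd⟩
  -- the comparison function
  have hfd0 : HasDerivAt f (deriv f 0) ((0 : ℝ) : ℂ) := by
    rw [Complex.ofReal_zero]
    exact (hf.differentiableAt (ball_mem_nhds _ one_pos)).hasDerivAt
  have h1 : HasDerivAt (fun x : ℝ => f (x : ℂ)) (deriv f 0) (0 : ℝ) := by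
    have h0 := HasDerivAt.scomp (0 : ℝ) hfd0 (Complex.ofRealCLM.hasDerivAt (x := (0 : ℝ)))
    have h00 : HasDerivAt (f ∘ Complex.ofReal) (deriv f 0) (0 : ℝ) := by simpa using h0
    exact h00
  have h2 : HasDerivAt (fun h : ℝ => f ((α * h : ℝ) : ℂ)) v (0 : ℝ) := by
    have h1' : HasDerivAt (fun x : ℝ => f (x : ℂ)) (deriv f 0) (α * (0 : ℝ)) := by
      rw [mul_zero]; exact h1
    have h3 := HasDerivAt.scomp (0 : ℝ) h1' ((hasDerivAt_id (0 : ℝ)).const_mul α)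
    rw [mul_one] at h3
    rw [← hfd, Complex.coe_smul]
    exact h3
  have h3 : HasDerivAt (fun h : ℝ => γ (t + h)) v (0 : ℝ) := by
    have h4 : HasDerivAt γ v (t + 0) := by rw [add_zero]; exact hγ
    have h5 := HasDerivAt.scomp (0 : ℝ) h4 ((hasDerivAt_id (0 : ℝ)).const_add t)
    rw [one_smul] at h5
    exact h5
  have hq : HasDerivAt (fun h : ℝ => f ((α * h : ℝ) : ℂ) - γ (t + h)) (0 : E) (0 : ℝ) := by
    have := h2.sub h3
    rwa [sub_self] at this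
  have hq0 : f ((α * 0 : ℝ) : ℂ) - γ (t + 0) = 0 := by
    rw [mul_zero, Complex.ofReal_zero, hf0, add_zero, sub_self]
  have hu : HasDerivAt (fun h : ℝ => ‖f ((α * h : ℝ) : ℂ) - γ (t + h)‖ / (r / 2)) 0 (0 : ℝ) := by
    have h4 := hasDerivAt_iff_isLittleO.1 hq
    simp only [hq0, sub_zero, smul_zero] at h4
    have h5 : HasDerivAt (fun h : ℝ => ‖f ((α * h : ℝ) : ℂ) - γ (t + h)‖) 0 (0 : ℝ) := by
      rw [hasDerivAt_iff_isLittleO]
      simp only [hq0, norm_zero, sub_zero, smul_zero]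
      exact h4.norm_left
    have h6 := h5.div_const (r / 2)
    rwa [zero_div] at h6
  have hath0 : HasDerivAt ath 1 0 := by
    have := hasDerivAt_ath (x := 0) (by norm_num) (by norm_num)
    simpa using this
  have hF1 : HasDerivAt (fun h : ℝ => ath (α * h)) α (0 : ℝ) := by
    have h4 : HasDerivAt ath 1 (α * (0 : ℝ)) := by rw [mul_zero]; exact hath0
    have h5 := h4.comp (0 : ℝ) ((hasDerivAt_id (0 : ℝ)).const_mul α)
    rw [mul_one, one_mul] at h5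
    exact h5
  have hF2 : HasDerivAt (fun h : ℝ => ath (‖f ((α * h : ℝ) : ℂ) - γ (t + h)‖ / (r / 2))) 0
      (0 : ℝ) := by
    have h4 : HasDerivAt ath 1 (‖f ((α * (0 : ℝ) : ℝ) : ℂ) - γ (t + (0 : ℝ))‖ / (r / 2)) := by
      rw [hq0, norm_zero, zero_div]; exact hath0
    have h5 := h4.comp (0 : ℝ) hu
    rw [mul_zero] at h5
    exact h5
  have hF := (hF1.add hF2).hasDerivWithinAt (s := Ioi (0 : ℝ))
  rw [hasDerivWithinAt_iff_tendsto_slope' (by simp)] at hF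
  rw [add_zero] at hF
  refine ge_of_tendsto hF ?_
  -- eventual inequality
  have e1 : ∀ᶠ h : ℝ in 𝓝[>] 0, ‖γ (t + h) - γ t‖ < r / 2 := by
    have h4 : Tendsto (fun h : ℝ => ‖γ (t + h) - γ t‖) (𝓝 0) (𝓝 0) := by
      have h5 : Tendsto (fun h : ℝ => γ (t + h)) (𝓝 0) (𝓝 (γ (t + 0))) := h3.continuousAt
      have h6 := (h5.sub_const (γ t)).norm
      simpa using h6
    exact nhdsWithin_le_nhds (h4.eventually (gt_mem_nhds (by positivity)))
  have e2 : ∀ᶠ h : ℝ in 𝓝[>] 0, ‖f ((α * h : ℝ) : ℂ) - γ (t + h)‖ < r / 2 := by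
    have h4 : Tendsto (fun h : ℝ => ‖f ((α * h : ℝ) : ℂ) - γ (t + h)‖) (𝓝 0) (𝓝 0) := by
      have h5 : Tendsto (fun h : ℝ => f ((α * h : ℝ) : ℂ) - γ (t + h)) (𝓝 0)
        (𝓝 (f ((α * 0 : ℝ) : ℂ) - γ (t + 0))) := hq.continuousAt
      have h6 := h5.norm
      rwa [hq0, norm_zero] at h6
    exact nhdsWithin_le_nhds (h4.eventually (gt_mem_nhds (by positivity)))
  have e3 : ∀ᶠ h : ℝ in 𝓝[>] 0, α * h < 1 := by
    have h4 : Tendsto (fun h : ℝ => α * h) (𝓝 0) (𝓝 (α * 0)) :=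
      (Continuous.tendsto (by fun_prop) 0)
    rw [mul_zero] at h4
    exact nhdsWithin_le_nhds (h4.eventually (gt_mem_nhds one_pos))
  filter_upwards [hmem, hk, e1, e2, e3, self_mem_nhdsWithin] with h hm hkk g1 g2 g3 hpos
  have hpos' : 0 < h := hpos
  rw [slope_def_field, sub_zero, le_div_iff₀ hpos']
  simp only [Pi.add_apply]
  rw [hq0, mul_zero, norm_zero, zero_div, H111.ath_zero, add_zero, sub_zero]
  have hαh : 0 ≤ α * h := by positivity
  have hmemb : ((α * h : ℝ) : ℂ) ∈ ball (0 : ℂ) 1 := by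
    rw [mem_ball_iff, Complex.norm_real, Real.norm_of_nonneg hαh]; exact g3
  have k1 : kob Ω (f 0) (f ((α * h : ℝ) : ℂ)) ≤ pdist 0 ((α * h : ℝ) : ℂ) :=
    kob_le_of_chain (H111.single f 0 _ hf hfm (mem_ball_self one_pos) hmemb)
  rw [H111.pdist_zero_left hαh, hf0] at k1
  have hball : ball (γ (t + h)) (r / 2) ⊆ Ω := by
    intro x hx
    apply hb
    rw [mem_ball_iff_norm] at hx ⊢
    calc ‖x - γ t‖ = ‖(x - γ (t + h)) + (γ (t + h) - γ t)‖ := by rw [sub_add_sub_cancel]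
      _ ≤ _ := norm_add_le _ _
      _ < r := by linarith
  have k2 := hK.near (γ (t + h)) (f ((α * h : ℝ) : ℂ)) (r / 2) (by positivity) hball g2
  have k3 := hK.triangle (γ t) hz _ (hfm hmemb) _ hm
  rw [hK.comm (f ((α * h : ℝ) : ℂ)) (γ (t + h))] at k3
  linarith

theorem kappa_le_of_speed (hc : Convex ℝ Ω) (ho : IsOpen Ω) (hbd : Bornology.IsBounded Ω)
    {γ : ℝ → E} {t : ℝ} {v : E}
    (hγ : HasDerivAt γ v t) {L : ℝ} (hz : γ t ∈ Ω)
    (hmem : ∀ᶠ h : ℝ in 𝓝[>] 0, γ (t + h) ∈ Ω)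
    (hk : ∀ᶠ h : ℝ in 𝓝[>] 0, kob Ω (γ t) (γ (t + h)) ≤ L * h) :
    kappa Ω (γ t) v ≤ L := by
  obtain ⟨r, hr, hb⟩ := Metric.isOpen_iff.1 ho (γ t) hz
  have key : ∀ ε : ℝ, 0 < ε → ε < 1 → kappa Ω (γ t) v ≤ 1 / (1 - ε) * L := by
    intro ε hε hε1
    obtain ⟨δ, hδ0, hδ⟩ := kappa_le_kob hc ho hbd hz hε hε1
    have hslope : Tendsto (fun h : ℝ => h⁻¹ • (γ (t + h) - γ t)) (𝓝[>] 0) (𝓝 v) := by
      have h1 := hγ.tendsto_slope_zero
      exact h1.mono_left (nhdsWithin_mono _ (fun x hx => (ne_of_gt hx)))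
    have hlim : Tendsto (fun h : ℝ => 1 / (1 - ε) * L + ‖v - h⁻¹ • (γ (t + h) - γ t)‖ / r)
        (𝓝[>] 0) (𝓝 (1 / (1 - ε) * L + ‖v - v‖ / r)) :=
      ((hslope.const_sub v).norm.div_const r).const_add _
    rw [sub_self, norm_zero, zero_div, add_zero] at hlim
    refine ge_of_tendsto hlim ?_
    have e1 : ∀ᶠ h : ℝ in 𝓝[>] 0, L * h < δ := by
      have h4 : Tendsto (fun h : ℝ => L * h) (𝓝 0) (𝓝 (L * 0)) :=
        (Continuous.tendsto (by fun_prop) 0)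
      rw [mul_zero] at h4
      exact nhdsWithin_le_nhds (h4.eventually (gt_mem_nhds hδ0))
    filter_upwards [hmem, hk, e1, self_mem_nhdsWithin] with h hm hkk g1 hpos
    have hpos' : 0 < h := hpos
    have hm' : 0 < 1 - ε := by linarith
    have h1 := hδ (γ (t + h)) hm (by linarith)
    have h2 : kappa Ω (γ t) (h⁻¹ • (γ (t + h) - γ t)) ≤ 1 / (1 - ε) * L := by
      rw [kappa_smul ho hz (by positivity)]
      rw [inv_mul_le_iff₀ hpos']
      calc _ ≤ 1 / (1 - ε) * kob Ω (γ t) (γ (t + h)) := h1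
        _ ≤ 1 / (1 - ε) * (L * h) := by gcongr
        _ = _ := by ring
    have h3 := kappa_le_norm hr hb (v - h⁻¹ • (γ (t + h) - γ t))
    have h4 := kappa_add_le hc ho hz (h⁻¹ • (γ (t + h) - γ t)) (v - h⁻¹ • (γ (t + h) - γ t))
    rw [add_sub_cancel] at h4
    linarith
  have h2 : Tendsto (fun ε : ℝ => 1 / (1 - ε) * L) (𝓝[>] 0) (𝓝 (1 / (1 - 0) * L)) := by
    have h3 : ContinuousAt (fun ε : ℝ => 1 / (1 - ε) * L) 0 := by
      refine ContinuousAt.mul ?_ continuousAt_const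
      exact continuousAt_const.div (continuousAt_const.sub continuousAt_id) (by norm_num)
    exact h3.tendsto.mono_left nhdsWithin_le_nhds
  rw [sub_zero, div_one, one_mul] at h2
  refine ge_of_tendsto h2 ?_
  have h3 : ∀ᶠ ε : ℝ in 𝓝[>] 0, ε < 1 := nhdsWithin_le_nhds (gt_mem_nhds one_pos)
  filter_upwards [self_mem_nhdsWithin, h3] with ε h1 h2 using key ε h1 h2

/-- Along a curve of constant Kobayashi speed `L` the Kobayashi–Royden metric of the velocity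
is `L`. -/
theorem kappa_eq_of_speed (hc : Convex ℝ Ω) (ho : IsOpen Ω) (hbd : Bornology.IsBounded Ω)
    {γ : ℝ → E} {t : ℝ} {v : E}
    (hγ : HasDerivAt γ v t) {L : ℝ} (hz : γ t ∈ Ω)
    (hmem : ∀ᶠ h : ℝ in 𝓝[>] 0, γ (t + h) ∈ Ω)
    (hk : ∀ᶠ h : ℝ in 𝓝[>] 0, kob Ω (γ t) (γ (t + h)) = L * h) :
    kappa Ω (γ t) v = L := by
  apply le_antisymm
  · exact kappa_le_of_speed hc ho hbd hγ hz hmem (hk.mono fun h hh => hh.le)
  · exact le_kappa_of_speed hc ho hγ hz hmem (hk.mono fun h hh => hh.ge)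

end Pool.Agent.H214.Vis
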