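import Pool.Agent.H214.DK
import Pool.Graph.R_seed8.TH332.DW.Chain
import Pool.Graph.R_seed8.TH332.DW.Dyn

/-!
# Existence of geodesic segments
-/

set_option autoImplicit false

namespace Pool.Agent.H214.Vis

open Metric Set Filter Topology MeasureTheory
open Pool.TH332.DW Pool.TH332.DW.TH416

theorem kob_tendsto_zero {Ω : Set (ℂ × ℂ)} (hK : KobFacts Ω) (ho : IsOpen Ω) {x : ℂ × ℂ}
    (hx : x ∈ Ω) {ι : Type*} {l : Filter ι} {u : ι → ℂ × ℂ} (hu : Tendsto u l (𝓝 x)) :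
    Tendsto (fun i => kob Ω x (u i)) l (𝓝 0) := by
  obtain ⟨r, hr, hb⟩ := Metric.isOpen_iff.1 ho x hx
  have h1 : Tendsto (fun i => ‖u i - x‖ / r) l (𝓝 0) := by
    have h2 := ((hu.sub_const x).norm.div_const r)
    simpa using h2
  have h3 := ath_tendsto_zero.comp h1
  refine squeeze_zero' (Eventually.of_forall fun i => hK.nonneg _ _) ?_ h3
  have h4 : ∀ᶠ i in l, ‖u i - x‖ < r := by
    have h5 := hu (ball_mem_nhds x hr)
    filter_upwards [h5] with i hi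
    exact mem_ball_iff_norm.1 hi
  filter_upwards [h4] with i hi
  exact hK.near x (u i) r hr hb hi

theorem nodes_dist {Ω : Set (ℂ × ℂ)} (hK : KobFacts Ω) {b : ℕ → ℂ × ℂ} {M : ℕ} {h : ℝ}
    (hbm : ∀ j ≤ M, b j ∈ Ω) (hbs : ∀ j < M, kob Ω (b j) (b (j + 1)) ≤ h) (i : ℕ) :
    ∀ k : ℕ, i + k ≤ M → kob Ω (b i) (b (i + k)) ≤ k * h := by
  intro k
  induction k with
  | zero => intro hi; simp [hK.self _ (hbm i (by omega))]
  | succ k ih =>
    intro hi
    have h1 := ih (by omega)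
    have h2 := hbs (i + k) (by omega)
    have h3 := hK.triangle (b i) (hbm i (by omega)) (b (i + k)) (hbm _ (by omega)) (b (i + (k + 1)))
      (hbm _ (by omega))
    rw [← add_assoc] at h3 ⊢
    push_cast
    linarith

/-- Hopf–Rinow: a path of constant speed. -/
theorem exists_path {Ω : Set (ℂ × ℂ)} (hK : KobFacts Ω) (ho : IsOpen Ω) {z w : ℂ × ℂ}
    (hz : z ∈ Ω) (hw : w ∈ Ω) {K : Set (ℂ × ℂ)} (hKc : IsCompact K) (hKΩ : K ⊆ Ω)
    (hKR : ∀ x ∈ Ω, kob Ω z x ≤ kob Ω z w + 1 → x ∈ K) :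
    ∃ σ : ℝ → ℂ × ℂ, (∀ t, 0 ≤ t → t ≤ 1 → σ t ∈ Ω) ∧ σ 0 = z ∧ σ 1 = w ∧
      ∀ s t : ℝ, 0 ≤ s → s ≤ t → t ≤ 1 → kob Ω (σ s) (σ t) = kob Ω z w * (t - s) := by
  obtain ⟨L, hL⟩ : ∃ L, L = kob Ω z w := ⟨_, rfl⟩
  rw [← hL] at hKR ⊢
  have hL0 : 0 ≤ L := by rw [hL]; exact hK.nonneg _ _
  -- nodes
  have hnodes : ∀ n : ℕ, ∃ b : ℕ → ℂ × ℂ, b 0 = z ∧ b (n + 1) = w ∧ (∀ j ≤ n + 1, b j ∈ Ω) ∧
      (∀ j < n + 1, kob Ω (b j) (b (j + 1)) ≤ (L + 1 / (n + 1 : ℝ)) / (n + 1 : ℝ)) := by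
    intro n
    have hn : (0 : ℝ) < n + 1 := by positivity
    obtain ⟨b, h1, h2, h3, h4, -⟩ := exists_nodes hK hw (h := (L + 1 / (n + 1 : ℝ)) / (n + 1 : ℝ))
      (by positivity) n z hz (by
        push_cast
        rw [mul_div_cancel₀ _ hn.ne', ← hL]
        have : 0 < 1 / (n + 1 : ℝ) := by positivity
        linarith)
    exact ⟨b, h1, h2, h3, h4⟩
  choose b hb0 hb1 hbm hbs using hnodes
  have hfl : ∀ (n : ℕ) (t : ℝ), 0 ≤ t → t ≤ 1 → ⌊t * (n + 1)⌋₊ ≤ n + 1 := by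
    intro n t ht0 ht1
    have hn : (0 : ℝ) < n + 1 := by positivity
    have h1 : t * (n + 1) ≤ ((n + 1 : ℕ) : ℝ) := by push_cast; nlinarith
    exact_mod_cast (Nat.floor_le_floor h1).trans (by rw [Nat.floor_natCast])
  have hmem : ∀ (n : ℕ) (t : ℝ), 0 ≤ t → t ≤ 1 → b n ⌊t * (n + 1)⌋₊ ∈ Ω :=
    fun n t h0 h1 => hbm n _ (hfl n t h0 h1)
  have hdist : ∀ (n : ℕ) (s t : ℝ), 0 ≤ s → s ≤ t → t ≤ 1 →
      kob Ω (b n ⌊s * (n + 1)⌋₊) (b n ⌊t * (n + 1)⌋₊) ≤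
        (t - s) * (L + 1 / (n + 1 : ℝ)) + (L + 1 / (n + 1 : ℝ)) * (1 / (n + 1 : ℝ)) := by
    intro n s t h0 h1 h2
    have hn : (0 : ℝ) < n + 1 := by positivity
    have hle : ⌊s * (n + 1)⌋₊ ≤ ⌊t * ((n : ℝ) + 1)⌋₊ := Nat.floor_le_floor (by gcongr)
    obtain ⟨k, hk⟩ := Nat.exists_eq_add_of_le hle
    have h3 := nodes_dist hK (hbm n) (hbs n) ⌊s * ((n : ℝ) + 1)⌋₊ k (by
      rw [← hk]; exact hfl n t (by linarith) h2)
    rw [← hk] at h3
    have h4 : (k : ℝ) ≤ (t - s) * (n + 1) + 1 := by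
      have h5 : ((⌊t * ((n : ℝ) + 1)⌋₊ : ℕ) : ℝ) ≤ t * (n + 1) :=
        Nat.floor_le (by have : 0 ≤ t := by linarith
                         positivity)
      have h6 : s * (n + 1) < (⌊s * ((n : ℝ) + 1)⌋₊ : ℕ) + 1 := Nat.lt_floor_add_one _
      have h7 : ((⌊t * ((n : ℝ) + 1)⌋₊ : ℕ) : ℝ) = (⌊s * ((n : ℝ) + 1)⌋₊ : ℕ) + k := by
        rw [hk]; push_cast; ring
      nlinarith
    have h5 : 0 ≤ (L + 1 / (n + 1 : ℝ)) / (n + 1 : ℝ) := by positivity
    calc _ ≤ k * ((L + 1 / (n + 1 : ℝ)) / (n + 1 : ℝ)) := h3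
      _ ≤ ((t - s) * (n + 1) + 1) * ((L + 1 / (n + 1 : ℝ)) / (n + 1 : ℝ)) :=
        mul_le_mul_of_nonneg_right h4 h5
      _ = _ := by field_simp
  have hinK : ∀ (n : ℕ) (t : ℝ), 0 ≤ t → t ≤ 1 → b n ⌊t * (n + 1)⌋₊ ∈ K := by
    intro n t h0 h1
    have hn : (0 : ℝ) < n + 1 := by positivity
    apply hKR _ (hmem n t h0 h1)
    have h3 := nodes_dist hK (hbm n) (hbs n) 0 ⌊t * ((n : ℝ) + 1)⌋₊ (by
      rw [zero_add]; exact hfl n t h0 h1)
    rw [zero_add, hb0] at h3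
    have h4 : ((⌊t * ((n : ℝ) + 1)⌋₊ : ℕ) : ℝ) ≤ n + 1 := by exact_mod_cast hfl n t h0 h1
    have h5 : 0 ≤ (L + 1 / (n + 1 : ℝ)) / (n + 1 : ℝ) := by positivity
    have h6 := mul_le_mul_of_nonneg_right h4 h5
    rw [mul_div_cancel₀ _ hn.ne'] at h6
    have h7 : 1 / (n + 1 : ℝ) ≤ 1 := by
      rw [div_le_one hn]; have : (0 : ℝ) ≤ n := by positivity
      linarith
    linarith
  -- the limit along an ultrafilter
  have hU : ∀ t : ℝ, ∃ x : ℂ × ℂ, 0 ≤ t → t ≤ 1 → (x ∈ K ∧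
      Tendsto (fun n : ℕ => b n ⌊t * (n + 1)⌋₊) (hyperfilter ℕ) (𝓝 x)) := by
    intro t
    by_cases ht : 0 ≤ t ∧ t ≤ 1
    · obtain ⟨x, hx, hx2⟩ := hKc.ultrafilter_le_nhds
        ((hyperfilter ℕ).map (fun n : ℕ => b n ⌊t * (n + 1)⌋₊)) (by
          rw [Ultrafilter.coe_map, le_principal_iff, mem_map]
          exact Filter.univ_mem' fun n => hinK n t ht.1 ht.2)
      exact ⟨x, fun _ _ => ⟨hx, hx2⟩⟩
    · exact ⟨0, fun h0 h1 => absurd ⟨h0, h1⟩ ht⟩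
  choose σ hσ using hU
  have hσΩ : ∀ t, 0 ≤ t → t ≤ 1 → σ t ∈ Ω := fun t h0 h1 => hKΩ (hσ t h0 h1).1
  have hatTop : (hyperfilter ℕ : Filter ℕ) ≤ atTop := by
    rw [← Nat.cofinite_eq_atTop]; exact hyperfilter_le_cofinite
  have hone : Tendsto (fun n : ℕ => 1 / ((n : ℝ) + 1)) (hyperfilter ℕ : Filter ℕ) (𝓝 0) :=
    tendsto_one_div_add_atTop_nhds_zero_nat.mono_left hatTop
  have hle : ∀ s t : ℝ, 0 ≤ s → s ≤ t → t ≤ 1 → kob Ω (σ s) (σ t) ≤ L * (t - s) := by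
    intro s t h0 h1 h2
    have e1 := kob_tendsto_zero hK ho (hσΩ s h0 (by linarith)) (hσ s h0 (by linarith)).2
    have e2 := kob_tendsto_zero hK ho (hσΩ t (by linarith) h2) (hσ t (by linarith) h2).2
    have e3 : Tendsto (fun n : ℕ => (t - s) * (L + 1 / (n + 1 : ℝ)) +
        (L + 1 / (n + 1 : ℝ)) * (1 / (n + 1 : ℝ))) (hyperfilter ℕ : Filter ℕ)
        (𝓝 ((t - s) * (L + 0) + (L + 0) * 0)) :=
      ((hone.const_add L).const_mul _).add ((hone.const_add L).mul hone)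
    have e4 := (e1.add e3).add e2
    have e5 : (0 + ((t - s) * (L + 0) + (L + 0) * 0) + 0) = L * (t - s) := by ring
    rw [e5] at e4
    refine ge_of_tendsto e4 (Eventually.of_forall fun n => ?_)
    have m1 := hmem n s h0 (by linarith)
    have m2 := hmem n t (by linarith) h2
    have t1 := hK.triangle _ (hσΩ s h0 (by linarith)) _ m1 _ (hσΩ t (by linarith) h2)
    have t2 := hK.triangle _ m1 _ m2 _ (hσΩ t (by linarith) h2)
    rw [hK.comm (b n ⌊t * ((n : ℝ) + 1)⌋₊) (σ t)] at t2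
    have t3 := hdist n s t h0 h1 h2
    linarith
  have hs0 : σ 0 = z := by
    have h1 := (hσ 0 le_rfl zero_le_one).2
    simp only [zero_mul, Nat.floor_zero, hb0] at h1
    exact tendsto_nhds_unique h1 tendsto_const_nhds
  have hs1 : σ 1 = w := by
    have h1 := (hσ 1 zero_le_one le_rfl).2
    have h2 : ∀ n : ℕ, ⌊(1 : ℝ) * ((n : ℝ) + 1)⌋₊ = n + 1 := by
      intro n
      rw [one_mul]
      exact_mod_cast Nat.floor_natCast (R := ℝ) (n + 1)
    simp only [h2, hb1] at h1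
    exact tendsto_nhds_unique h1 tendsto_const_nhds
  refine ⟨σ, hσΩ, hs0, hs1, fun s t h0 h1 h2 => ?_⟩
  apply le_antisymm (hle s t h0 h1 h2)
  have a1 := hle 0 s le_rfl h0 (by linarith)
  have a2 := hle t 1 (by linarith) h2 le_rfl
  have a3 := hK.triangle z hz (σ s) (hσΩ s h0 (by linarith)) w hw
  have a4 := hK.triangle (σ s) (hσΩ s h0 (by linarith)) (σ t) (hσΩ t (by linarith) h2) w hw
  rw [hs0] at a1
  rw [hs1] at a2
  rw [← hL] at a3
  nlinarith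

/-- A curve with constant Kobayashi speed on `[a, b]` is a geodesic segment. -/
theorem isGeodesicSegment_of_speed {Ω : Set (ℂ × ℂ)} (hc : Convex ℝ Ω) (ho : IsOpen Ω)
    (hbd : Bornology.IsBounded Ω) {γ : ℝ → ℂ × ℂ} {a b L : ℝ} (hab : a ≤ b) (hL : 0 ≤ L)
    (hm : ∀ t, a ≤ t → t ≤ b → γ t ∈ Ω)
    (hk : ∀ s t : ℝ, a ≤ s → s ≤ t → t ≤ b → kob Ω (γ s) (γ t) = L * (t - s)) :
    IsGeodesicSegment Ω γ a b := by
  have hK := kobFacts hc ho
  obtain ⟨B0, hB0⟩ := isBounded_iff_forall_norm_le.1 hbd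
  obtain ⟨B, hB⟩ : ∃ B : ℝ, B = max B0 0 + 1 := ⟨_, rfl⟩
  have hBpos : 0 < B := by rw [hB]; have := le_max_right B0 0; linarith
  have hBb : ∀ x ∈ Ω, ‖x‖ < B := by
    intro x hx
    have := hB0 x hx
    have h2 := le_max_left B0 0
    rw [hB]; linarith
  -- Lipschitz
  obtain ⟨C, hC⟩ : ∃ C : ℝ, C = 2 * B * (2 * L * Real.exp (2 * (L * (b - a)))) := ⟨_, rfl⟩
  have hC0 : 0 ≤ C := by rw [hC]; positivity
  have hlip1 : ∀ s t : ℝ, a ≤ s → s ≤ t → t ≤ b → ‖γ t - γ s‖ ≤ C * (t - s) := by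
    intro s t h0 h1 h2
    have h3 := norm_le_of_kob hK hBb (hm s h0 (by linarith)) (hm t (by linarith) h2)
    rw [hk s t h0 h1 h2] at h3
    have h4 : Real.exp (2 * (L * (t - s))) - 1 ≤
        2 * (L * (t - s)) * Real.exp (2 * (L * (t - s))) := by
      have h5 := Real.add_one_le_exp (-(2 * (L * (t - s))))
      have h6 := Real.exp_pos (2 * (L * (t - s)))
      have h7 : Real.exp (2 * (L * (t - s))) * Real.exp (-(2 * (L * (t - s)))) = 1 := by
        rw [← Real.exp_add, add_neg_cancel, Real.exp_zero]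
      nlinarith
    have h5 : Real.exp (2 * (L * (t - s))) ≤ Real.exp (2 * (L * (b - a))) := by
      apply Real.exp_le_exp.2
      have : L * (t - s) ≤ L * (b - a) := mul_le_mul_of_nonneg_left (by linarith) hL
      linarith
    have h6 : 0 ≤ 2 * (L * (t - s)) := by
      have : 0 ≤ t - s := by linarith
      positivity
    calc _ ≤ 2 * B * (Real.exp (2 * (L * (t - s))) - 1) := h3
      _ ≤ 2 * B * (2 * (L * (t - s)) * Real.exp (2 * (L * (b - a)))) := by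
        apply mul_le_mul_of_nonneg_left _ (by positivity)
        exact h4.trans (mul_le_mul_of_nonneg_left h5 h6)
      _ = C * (t - s) := by rw [hC]; ring
  have hlip : LipschitzOnWith (Real.toNNReal C) γ (Icc a b) := by
    apply LipschitzOnWith.of_dist_le_mul
    intro s hs t ht
    rw [Real.coe_toNNReal C hC0]
    rcases le_total s t with h | h
    · have := hlip1 s t hs.1 h ht.2
      rw [dist_comm, dist_eq_norm, Real.dist_eq, abs_sub_comm, abs_of_nonneg (by linarith)]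
      exact this
    · have := hlip1 t s ht.1 h hs.2
      rw [dist_eq_norm, Real.dist_eq, abs_of_nonneg (by linarith)]
      exact this
  refine ⟨?_, fun t ht => hm t ht.1 ht.2, ?_⟩
  · apply LipschitzOnWith.absolutelyContinuousOnInterval (K := Real.toNNReal C)
    rw [uIcc_of_le hab]
    exact hlip
  · intro s t h0 h1 h2
    have hae : ∀ᵐ r : ℝ, r ∈ Icc s t → ENNReal.ofReal (kappa Ω (γ r) (deriv γ r)) =
        ENNReal.ofReal L := by
      have hd := hlip.ae_differentiableWithinAt_of_mem (μ := (volume : Measure ℝ))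
      have hne : ∀ᵐ r : ℝ, r ≠ a ∧ r ≠ b := by
        have h3 : ({a, b} : Set ℝ).Countable := (Set.toFinite _).countable
        have h4 := h3.ae_notMem (volume : Measure ℝ)
        filter_upwards [h4] with r hr
        constructor
        · rintro rfl; exact hr (by simp)
        · rintro rfl; exact hr (by simp)
      filter_upwards [hd, hne] with r hr hr2 hrst
      have har : a < r := lt_of_le_of_ne (h0.trans hrst.1) (Ne.symm hr2.1)
      have hrb : r < b := lt_of_le_of_ne (hrst.2.trans h2) hr2.2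
      have hdiff : DifferentiableAt ℝ γ r :=
        (hr ⟨har.le, hrb.le⟩).differentiableAt (Icc_mem_nhds har hrb)
      congr 1
      have hsmall : ∀ᶠ h : ℝ in 𝓝[>] 0, r + h ≤ b := by
        have : ∀ᶠ h : ℝ in 𝓝 0, h < b - r := gt_mem_nhds (by linarith)
        filter_upwards [nhdsWithin_le_nhds this] with h hh
        linarith
      apply kappa_eq_of_speed hc ho hbd hdiff.hasDerivAt (hm r har.le hrb.le)
      · filter_upwards [hsmall, self_mem_nhdsWithin] with h hh hpos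
        have hpos' : 0 < h := hpos
        exact hm _ (by linarith) hh
      · filter_upwards [hsmall, self_mem_nhdsWithin] with h hh hpos
        have hpos' : 0 < h := hpos
        rw [hk r (r + h) har.le (by linarith) hh]
        ring
    rw [setLIntegral_congr_fun_ae measurableSet_Icc hae, setLIntegral_const, Real.volume_Icc,
      ← ENNReal.ofReal_mul hL, hk s t h0 h1 h2]

/-- Existence of geodesic segments. -/
theorem exists_geodesicSegment {Ω : Set (ℂ × ℂ)} (hc : Convex ℝ Ω) (ho : IsOpen Ω)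
    (hbd : Bornology.IsBounded Ω)
    (hprop : ∀ z ∈ Ω, ∀ R : ℝ, ∃ K : Set (ℂ × ℂ), IsCompact K ∧ K ⊆ Ω ∧
      ∀ x ∈ Ω, kob Ω z x ≤ R → x ∈ K) {z w : ℂ × ℂ} (hz : z ∈ Ω) (hw : w ∈ Ω) :
    ∃ γ : ℝ → ℂ × ℂ, IsGeodesicSegment Ω γ 0 1 ∧ γ 0 = z ∧ γ 1 = w := by
  have hK := kobFacts hc ho
  obtain ⟨K, hKc, hKΩ, hKR⟩ := hprop z hz (kob Ω z w + 1)
  obtain ⟨σ, h1, h2, h3, h4⟩ := exists_path hK ho hz hw hKc hKΩ hKR
  exact ⟨σ, isGeodesicSegment_of_speed hc ho hbd zero_le_one (hK.nonneg z w) h1 h4, h2, h3⟩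

end Pool.Agent.H214.Vis
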