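import Pool.Graph.R_seed8.TH332.DW.Defs

/-!
# Definitions for MP_4f7452_an: geodesics for the Kobayashi distance, landing and visibility

The Kobayashi distance `k_Ω` is `Pool.TH332.DW.kob Ω` (infimum of the Poincare lengths of chains
of holomorphic discs, with `k(0, r) = artanh r` in the unit disc).
-/

set_option autoImplicit false

namespace Pool.Agent.H214.Vis

open Metric Set Filter Topology MeasureTheory
open Pool.TH332.DW

variable {E : Type*} [NormedAddCommGroup E] [NormedSpace ℂ E]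

/-- `α` is a competitor for `κ_Ω(z; v)`: `α > 0` and there is a holomorphic map `f` from the unit
disc to `Ω` with `f(0) = z` and `α f'(0) = v`. -/
def Comp (Ω : Set E) (z v : E) (α : ℝ) : Prop :=
  0 < α ∧ ∃ f : ℂ → E, DifferentiableOn ℂ f (ball 0 1) ∧ MapsTo f (ball 0 1) Ω ∧ f 0 = z ∧
    (α : ℂ) • deriv f 0 = v

/-- The Kobayashi–Royden infinitesimal metric
`κ_Ω(z; v) = inf {α > 0 : there is a holomorphic f : 𝔻 → Ω with f(0) = z and α f'(0) = v}`. -/
noncomputable def kappa (Ω : Set E) (z v : E) : ℝ := sInf {α : ℝ | Comp Ω z v α}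

/-- `γ` restricted to `[a, b]` is a geodesic segment of `Ω`: it is absolutely continuous, takes
values in `Ω`, and `∫_s^t κ_Ω(γ(r); γ'(r)) dr = k_Ω(γ(s), γ(t))` for `a ≤ s ≤ t ≤ b`. -/
structure IsGeodesicSegment (Ω : Set E) (γ : ℝ → E) (a b : ℝ) : Prop where
  ac : AbsolutelyContinuousOnInterval γ a b
  mem : ∀ t ∈ Icc a b, γ t ∈ Ω
  length : ∀ s t : ℝ, a ≤ s → s ≤ t → t ≤ b →
    ∫⁻ r in Icc s t, ENNReal.ofReal (kappa Ω (γ r) (deriv γ r)) =
      ENNReal.ofReal (kob Ω (γ s) (γ t))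

/-- A geodesic ray of `Ω`: an absolutely continuous curve `γ : [0, ∞) → Ω` such that each
restriction to `[0, T]` is a geodesic segment and `k_Ω(γ(0), γ(t)) → ∞` as `t → ∞`. -/
structure IsGeodesicRay (Ω : Set E) (γ : ℝ → E) : Prop where
  seg : ∀ T : ℝ, 0 ≤ T → IsGeodesicSegment Ω γ 0 T
  tendsto : Tendsto (fun t : ℝ => kob Ω (γ 0) (γ t)) atTop atTop

/-- `p` and `q` are strongly visible: there is a compact `K ⊆ Ω` such that for every sequence of
geodesic segments `γ_k : [0,1] → Ω` with `γ_k(0) → p` and `γ_k(1) → q`, for all large `k` there is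
some `s ∈ (0,1)` with `γ_k(s) ∈ K`. -/
def StronglyVisible (Ω : Set E) (p q : E) : Prop :=
  ∃ K : Set E, IsCompact K ∧ K ⊆ Ω ∧
    ∀ γ : ℕ → ℝ → E, (∀ k, IsGeodesicSegment Ω (γ k) 0 1) →
      Tendsto (fun k => γ k 0) atTop (𝓝 p) → Tendsto (fun k => γ k 1) atTop (𝓝 q) →
        ∀ᶠ k in atTop, ∃ s ∈ Ioo (0 : ℝ) 1, γ k s ∈ K

/-- `Ω` is visible: every pair of distinct boundary points is strongly visible. -/
def Visible (Ω : Set E) : Prop :=
  ∀ p ∈ frontier Ω, ∀ q ∈ frontier Ω, p ≠ q → StronglyVisible Ω p q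

end Pool.Agent.H214.Vis
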