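import Pool.Graph.R_seed8.TH332.DW.Kob
import Pool.Agent.H214.VisDefs

/-!
# The Kobayashi–Royden metric of a convex domain: basic facts
-/

set_option autoImplicit false

namespace Pool.Agent.H214.Vis

open Metric Set Filter Topology
open Pool.TH332.DW

variable {E : Type*} [NormedAddCommGroup E] [NormedSpace ℂ E] {Ω : Set E}

theorem kappa_nonneg (Ω : Set E) (z v : E) : 0 ≤ kappa Ω z v :=
  Real.sInf_nonneg fun _ h => h.1.le

theorem kappa_le {z v : E} {α : ℝ} (h : Comp Ω z v α) : kappa Ω z v ≤ α :=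
  csInf_le ⟨0, fun _ h => h.1.le⟩ h

theorem comp_ball {z : E} {r : ℝ} (hr : 0 < r) (hb : ball z r ⊆ Ω) {v : E} {α : ℝ} (hα : 0 < α)
    (hv : ‖v‖ ≤ α * r) : Comp Ω z v α := by
  refine ⟨hα, fun ζ => z + ζ • (((α⁻¹ : ℝ) : ℂ) • v), by fun_prop, ?_, by simp, ?_⟩
  · intro ζ hζ
    apply hb
    have hζ1 : ‖ζ‖ < 1 := by simpa using hζ
    rw [mem_ball_iff_norm, add_sub_cancel_left, norm_smul, norm_smul, Complex.norm_real,
      Real.norm_of_nonneg (by positivity)]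
    have h1 : α⁻¹ * ‖v‖ ≤ r := by
      rw [inv_mul_le_iff₀ hα]; exact hv
    rcases eq_or_lt_of_le (norm_nonneg v) with h0 | h0
    · rw [← h0]; simpa using hr
    · have h2 : 0 < α⁻¹ * ‖v‖ := by positivity
      nlinarith
  · have h1 : HasDerivAt (fun ζ : ℂ => z + ζ • (((α⁻¹ : ℝ) : ℂ) • v))
        ((1 : ℂ) • (((α⁻¹ : ℝ) : ℂ) • v)) 0 :=
      ((hasDerivAt_id (0 : ℂ)).smul_const _).const_add z
    rw [h1.deriv, one_smul, smul_smul]
    have : (α : ℂ) * ((α⁻¹ : ℝ) : ℂ) = 1 := by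
      rw [← Complex.ofReal_mul, mul_inv_cancel₀ hα.ne', Complex.ofReal_one]
    rw [this, one_smul]

theorem comp_nonempty (ho : IsOpen Ω) {z : E} (hz : z ∈ Ω) (v : E) :
    {α : ℝ | Comp Ω z v α}.Nonempty := by
  obtain ⟨r, hr, hb⟩ := Metric.isOpen_iff.1 ho z hz
  refine ⟨‖v‖ / r + 1, comp_ball hr hb (by positivity) ?_⟩
  rw [add_mul, div_mul_cancel₀ _ hr.ne']
  linarith

theorem exists_comp_lt (ho : IsOpen Ω) {z : E} (hz : z ∈ Ω) {v : E} {T : ℝ}
    (h : kappa Ω z v < T) : ∃ α < T, Comp Ω z v α := by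
  obtain ⟨α, h1, h2⟩ := exists_lt_of_csInf_lt (comp_nonempty ho hz v) h
  exact ⟨α, h2, h1⟩

theorem kappa_le_norm {z : E} {r : ℝ} (hr : 0 < r) (hb : ball z r ⊆ Ω) (v : E) :
    kappa Ω z v ≤ ‖v‖ / r := by
  apply le_of_forall_gt_imp_ge_of_dense
  intro α hα
  have h0 : 0 ≤ ‖v‖ / r := by positivity
  refine kappa_le (comp_ball hr hb (by linarith) ?_)
  have hα' : ‖v‖ / r < α := hα
  rw [div_lt_iff₀ hr] at hα'
  exact hα'.le

theorem kappa_zero (ho : IsOpen Ω) {z : E} (hz : z ∈ Ω) : kappa Ω z 0 = 0 := by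
  obtain ⟨r, hr, hb⟩ := Metric.isOpen_iff.1 ho z hz
  have h1 := kappa_le_norm hr hb (0 : E)
  rw [norm_zero, zero_div] at h1
  exact le_antisymm h1 (kappa_nonneg _ _ _)

theorem Comp.add (hc : Convex ℝ Ω) {z v w : E} {α β : ℝ} (h : Comp Ω z v α)
    (h' : Comp Ω z w β) : Comp Ω z (v + w) (α + β) := by
  obtain ⟨hα, f, hf, hfm, hf0, hfd⟩ := h
  obtain ⟨hβ, g, hg, hgm, hg0, hgd⟩ := h'
  have hs : 0 < α + β := by linarith
  have hfd' : DifferentiableAt ℂ f 0 := hf.differentiableAt (ball_mem_nhds _ one_pos)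
  have hgd' : DifferentiableAt ℂ g 0 := hg.differentiableAt (ball_mem_nhds _ one_pos)
  refine ⟨hs, fun ζ => ((α / (α + β) : ℝ) : ℂ) • f ζ + ((β / (α + β) : ℝ) : ℂ) • g ζ,
    (hf.const_smul _).add (hg.const_smul _), ?_, ?_, ?_⟩
  · intro ζ hζ
    have h1 := hc (hfm hζ) (hgm hζ) (show 0 ≤ α / (α + β) by positivity)
      (show 0 ≤ β / (α + β) by positivity) (by rw [← add_div, div_self hs.ne'])
    simpa only [Complex.coe_smul] using h1
  · simp only [hf0, hg0]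
    rw [← add_smul, ← Complex.ofReal_add, ← add_div, div_self hs.ne', Complex.ofReal_one, one_smul]
  · have h1 : HasDerivAt (fun ζ => ((α / (α + β) : ℝ) : ℂ) • f ζ + ((β / (α + β) : ℝ) : ℂ) • g ζ)
        (((α / (α + β) : ℝ) : ℂ) • deriv f 0 + ((β / (α + β) : ℝ) : ℂ) • deriv g 0) 0 :=
      (hfd'.hasDerivAt.const_smul _).add (hgd'.hasDerivAt.const_smul _)
    rw [h1.deriv, smul_add, smul_smul, smul_smul, ← Complex.ofReal_mul, ← Complex.ofReal_mul,
      mul_div_cancel₀ _ hs.ne', mul_div_cancel₀ _ hs.ne', hfd, hgd]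

theorem kappa_add_le (hc : Convex ℝ Ω) (ho : IsOpen Ω) {z : E} (hz : z ∈ Ω) (v w : E) :
    kappa Ω z (v + w) ≤ kappa Ω z v + kappa Ω z w := by
  apply le_of_forall_pos_le_add
  intro ε hε
  obtain ⟨α, hα, h1⟩ := exists_comp_lt ho hz (v := v) (T := kappa Ω z v + ε / 2) (by linarith)
  obtain ⟨β, hβ, h2⟩ := exists_comp_lt ho hz (v := w) (T := kappa Ω z w + ε / 2) (by linarith)
  have h3 := kappa_le (h1.add hc h2)
  linarith

theorem Comp.smul {z v : E} {α c : ℝ} (hc : 0 < c) (h : Comp Ω z v α) :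
    Comp Ω z (c • v) (c * α) := by
  obtain ⟨hα, f, hf, hfm, hf0, hfd⟩ := h
  refine ⟨by positivity, f, hf, hfm, hf0, ?_⟩
  rw [← hfd, Complex.ofReal_mul, mul_smul, Complex.coe_smul]

theorem kappa_smul (ho : IsOpen Ω) {z : E} (hz : z ∈ Ω) {c : ℝ} (hc : 0 < c) (v : E) :
    kappa Ω z (c • v) = c * kappa Ω z v := by
  have key : ∀ (c : ℝ), 0 < c → ∀ v : E, kappa Ω z (c • v) ≤ c * kappa Ω z v := by
    intro c hc v
    have h1 : ∀ ε : ℝ, 0 < ε → kappa Ω z (c • v) ≤ c * kappa Ω z v + ε := by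
      intro ε hε
      obtain ⟨α, hα, h1⟩ := exists_comp_lt ho hz (v := v) (T := kappa Ω z v + ε / c)
        (by have : 0 < ε / c := by positivity
            linarith)
      have h2 := kappa_le (h1.smul hc)
      have h3 : c * α ≤ c * (kappa Ω z v + ε / c) := by gcongr
      have h4 : c * (ε / c) = ε := by field_simp
      linarith
    exact le_of_forall_pos_le_add h1
  refine le_antisymm (key c hc v) ?_
  have h1 := key c⁻¹ (by positivity) (c • v)
  rw [inv_smul_smul₀ hc.ne'] at h1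
  have h2 := mul_le_mul_of_nonneg_left h1 hc.le
  rwa [mul_inv_cancel_left₀ hc.ne'] at h2

/-- moving the base point -/
theorem Comp.move (hc : Convex ℝ Ω) {y z v : E} {α ε r : ℝ} (hε : 0 < ε) (hε1 : ε < 1)
    (hb : ball z r ⊆ Ω) (hyz : ‖y - z‖ < ε * r) (h : Comp Ω y v α) :
    Comp Ω z v (α / (1 - ε)) := by
  obtain ⟨hα, f, hf, hfm, hf0, hfd⟩ := h
  have h1ε : 0 < 1 - ε := by linarith
  obtain ⟨x, hx⟩ : ∃ x : E, x = z + ((1 - ε) / ε) • (z - y) := ⟨_, rfl⟩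
  have hxΩ : x ∈ Ω := by
    apply hb
    rw [hx, mem_ball_iff_norm, add_sub_cancel_left, norm_smul, Real.norm_of_nonneg (by positivity),
      norm_sub_rev]
    rw [div_mul_eq_mul_div, div_lt_iff₀ hε]
    nlinarith [norm_nonneg (y - z)]
  have hcomb : (1 - ε) • y + ε • x = z := by
    rw [hx, smul_add, smul_smul, mul_div_cancel₀ _ hε.ne', smul_sub, sub_smul, sub_smul, one_smul,
      one_smul]
    abel
  have hfd' : DifferentiableAt ℂ f 0 := hf.differentiableAt (ball_mem_nhds _ one_pos)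
  refine ⟨by positivity, fun ζ => ((1 - ε : ℝ) : ℂ) • f ζ + ((ε : ℝ) : ℂ) • x,
    (hf.const_smul _).add_const _, ?_, ?_, ?_⟩
  · intro ζ hζ
    have h1 := hc (hfm hζ) hxΩ h1ε.le hε.le (by ring)
    simpa only [Complex.coe_smul] using h1
  · simp only [hf0, Complex.coe_smul]
    exact hcomb
  · have h1 : HasDerivAt (fun ζ => ((1 - ε : ℝ) : ℂ) • f ζ + ((ε : ℝ) : ℂ) • x)
        (((1 - ε : ℝ) : ℂ) • deriv f 0) 0 :=
      (hfd'.hasDerivAt.const_smul _).add_const _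
    rw [h1.deriv, smul_smul, ← Complex.ofReal_mul, div_mul_cancel₀ _ h1ε.ne', hfd]

/-- A supporting functional for `κ_Ω(z; ·)`. -/
theorem exists_functional (hc : Convex ℝ Ω) (ho : IsOpen Ω) {z : E} (hz : z ∈ Ω) (v : E) :
    ∃ g : E →L[ℝ] ℝ, g v = kappa Ω z v ∧ ∀ x, g x ≤ kappa Ω z x := by
  by_cases hv : v = 0
  · refine ⟨0, ?_, fun x => ?_⟩
    · rw [hv, kappa_zero ho hz]; simp
    · simpa using kappa_nonneg _ _ _
  obtain ⟨g, hg1, hg2⟩ := exists_extension_of_le_sublinear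
    (LinearPMap.mkSpanSingleton (K := ℝ) (σ := RingHom.id ℝ) v (kappa Ω z v) hv) (kappa Ω z)
    (fun c hc x => kappa_smul ho hz hc x) (kappa_add_le hc ho hz) (by
      rintro ⟨x, hx⟩
      obtain ⟨c, rfl⟩ := Submodule.mem_span_singleton.1 hx
      have h1 : (LinearPMap.mkSpanSingleton (K := ℝ) (σ := RingHom.id ℝ) v (kappa Ω z v) hv)
          ⟨c • v, hx⟩
          = c * kappa Ω z v := LinearPMap.mkSpanSingleton'_apply v (kappa Ω z v) _ c hx
      rw [h1]
      simp only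
      rcases lt_trichotomy c 0 with h | h | h
      · have h2 := kappa_nonneg Ω z (c • v)
        have h3 := kappa_nonneg Ω z v
        nlinarith
      · rw [h, zero_mul]; exact kappa_nonneg _ _ _
      · rw [kappa_smul ho hz h])
  obtain ⟨r, hr, hb⟩ := Metric.isOpen_iff.1 ho z hz
  have hbound : ∀ x, ‖g x‖ ≤ r⁻¹ * ‖x‖ := by
    intro x
    rw [Real.norm_eq_abs, abs_le]
    have h1 := (hg2 x).trans (kappa_le_norm hr hb x)
    have h2 := (hg2 (-x)).trans (kappa_le_norm hr hb (-x))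
    rw [map_neg, norm_neg] at h2
    rw [div_eq_inv_mul] at h1 h2
    constructor <;> linarith
  refine ⟨g.mkContinuous r⁻¹ hbound, ?_, fun x => hg2 x⟩
  have hmem : v ∈ (LinearPMap.mkSpanSingleton (K := ℝ) (σ := RingHom.id ℝ) v
      (kappa Ω z v) hv).domain := Submodule.mem_span_singleton_self v
  have h1 := hg1 ⟨v, hmem⟩
  have h2 := LinearPMap.mkSpanSingleton_apply ℝ ℝ (σ := RingHom.id ℝ) hv (kappa Ω z v)
  simp only [LinearMap.mkContinuous_apply]
  rw [h1]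
  exact h2

end Pool.Agent.H214.Vis
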