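import Pool.Agent.H214.Geo
import Pool.Graph.R_seed8.TH332.DW.Final

/-!
# Landing of geodesic rays of `Om`
-/

set_option autoImplicit false

namespace Pool.Agent.H214.Vis

open Metric Set Filter Topology MeasureTheory
open Pool.TH332.DW Pool.TH332.DW.TH416

section Defs

variable {E : Type*} [NormedAddCommGroup E] [NormedSpace ℂ E]

/-- Additivity of the Kobayashi distance along a geodesic segment. -/
theorem IsGeodesicSegment.add {Ω : Set E} {γ : ℝ → E} {a b : ℝ} (h : IsGeodesicSegment Ω γ a b)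
    {s t u : ℝ} (has : a ≤ s) (hst : s ≤ t) (htu : t ≤ u) (hub : u ≤ b) :
    kob Ω (γ s) (γ u) = kob Ω (γ s) (γ t) + kob Ω (γ t) (γ u) := by
  have h1 := h.length s t has hst (by linarith)
  have h2 := h.length t u (by linarith) htu hub
  have h3 := h.length s u has (by linarith) hub
  have h4 : Icc s u = Icc s t ∪ Ioc t u := (Icc_union_Ioc_eq_Icc hst htu).symm
  have h5 : Disjoint (Icc s t) (Ioc t u) := by
    rw [Set.disjoint_left]
    intro x hx hx2
    exact absurd hx2.1 (not_lt.2 hx.2)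
  rw [h4, lintegral_union measurableSet_Ioc h5, h1,
    setLIntegral_congr (Ioc_ae_eq_Icc (a := t) (b := u)), h2,
    ← ENNReal.ofReal_add (kob_nonneg _ _ _) (kob_nonneg _ _ _)] at h3
  exact ((ENNReal.ofReal_eq_ofReal_iff (add_nonneg (kob_nonneg _ _ _) (kob_nonneg _ _ _))
    (kob_nonneg _ _ _)).1 h3).symm

end Defs

theorem landing (hK : KobFacts Om)
    (hCex : ∃ C : ℝ, 0 ≤ C ∧ ∀ ζ ∈ Om, kob Om z00 ζ ≤ C - (1 / 2) * Real.log (- rho ζ))
    {z : ℝ → ℂ × ℂ} (hray : IsGeodesicRay Om z) : ∃ p ∈ frontier Om, Tendsto z atTop (𝓝 p) := by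
  obtain ⟨C, hC0, hC⟩ := hCex
  have hzm : ∀ t, 0 ≤ t → z t ∈ Om := fun t ht => (hray.seg t ht).mem t ⟨ht, le_rfl⟩
  obtain ⟨d0, hd0⟩ : ∃ d0 : ℝ, d0 = kob Om z00 (z 0) := ⟨_, rfl⟩
  have hz0 : z 0 ∈ Om := hzm 0 le_rfl
  have hadd : ∀ s t, 0 ≤ s → s ≤ t →
      kob Om (z 0) (z t) = kob Om (z 0) (z s) + kob Om (z s) (z t) := by
    intro s t hs hst
    exact (hray.seg t (by linarith)).add le_rfl hs hst le_rfl
  have hDz : Tendsto (fun t => kob Om z00 (z t)) atTop atTop := by
    have h1 := tendsto_atTop_add_const_right atTop (-d0) hray.tendsto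
    refine tendsto_atTop_mono' _ ?_ h1
    filter_upwards [eventually_ge_atTop (0 : ℝ)] with t ht
    have h2 := hK.triangle (z 0) hz0 z00 z00_mem (z t) (hzm t ht)
    rw [hK.comm (z 0) z00, ← hd0] at h2
    linarith
  -- after time `t₀` the record condition holds
  obtain ⟨t₀, ht₀0, ht₀⟩ : ∃ t₀ : ℝ, 0 ≤ t₀ ∧ ∀ s, t₀ ≤ s → d0 ≤ kob Om (z 0) (z s) := by
    obtain ⟨T, hT⟩ := (hray.tendsto.eventually (eventually_ge_atTop d0)).exists_forall_of_atTop
    exact ⟨max T 0, le_max_right _ _, fun s hs => hT s ((le_max_left _ _).trans hs)⟩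
  have hrec : ∀ s t, t₀ ≤ s → s ≤ t → kob Om (z s) (z t) ≤ kob Om z00 (z t) := by
    intro s t hs hst
    have h1 := hadd s t (by linarith) hst
    have h2 := ht₀ s hs
    have h3 := hK.triangle (z 0) hz0 z00 z00_mem (z t) (hzm t (by linarith))
    rw [hK.comm (z 0) z00, ← hd0] at h3
    linarith
  -- depth tends to zero
  have hδ : ∀ δ₀ > 0, ∀ᶠ t in atTop, - rho (z t) < δ₀ := by
    intro δ₀ hδ₀
    have h1 : ∀ᶠ n in atTop, C - (1 / 2) * Real.log δ₀ < kob Om z00 (z n) :=
      hDz.eventually (eventually_gt_atTop _)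
    filter_upwards [h1, eventually_ge_atTop (0 : ℝ)] with n hn hn0
    by_contra hcon
    push Not at hcon
    have h2 := hC (z n) (hzm n hn0)
    have h3 := Real.log_le_log hδ₀ hcon
    linarith
  -- a convergent sequence
  have hcb : IsCompact (closedBall (0 : ℂ × ℂ) 4) := isCompact_closedBall _ _
  have hin : ∀ n : ℕ, z (t₀ + n) ∈ closedBall (0 : ℂ × ℂ) 4 := by
    intro n
    rw [mem_closedBall, dist_zero_right]
    exact (bounds (le_of_lt (hzm _ (by positivity)))).2.2.2.2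
  obtain ⟨p, _, ψ, hψ, hψl⟩ := hcb.tendsto_subseq hin
  obtain ⟨m, hmdef⟩ : ∃ m : ℕ → ℝ, m = fun i => t₀ + (ψ i : ℝ) := ⟨_, rfl⟩
  have hmono : Monotone m := by
    intro i j hij
    rw [hmdef]
    have : (ψ i : ℝ) ≤ ψ j := by exact_mod_cast hψ.monotone hij
    simp only
    linarith
  have hmt : Tendsto m atTop atTop := by
    rw [hmdef]
    exact tendsto_atTop_add_const_left _ _ (tendsto_natCast_atTop_atTop.comp hψ.tendsto_atTop)
  have hm0 : ∀ i, t₀ ≤ m i := by
    intro i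
    rw [hmdef]
    have : (0 : ℝ) ≤ ψ i := by positivity
    simp only
    linarith
  have hm00 : ∀ i, 0 ≤ m i := fun i => ht₀0.trans (hm0 i)
  have hlim : Tendsto (fun i => z (m i)) atTop (𝓝 p) := by rw [hmdef]; exact hψl
  have hDm : Tendsto (fun i => kob Om z00 (z (m i))) atTop atTop := hDz.comp hmt
  have hp0 : rho p = 0 := by
    have h1 : Tendsto (fun i => rho (z (m i))) atTop (𝓝 (rho p)) :=
      (continuous_rho.tendsto p).comp hlim
    have h2 : Tendsto (fun i => rho (z (m i))) atTop (𝓝 0) := by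
      rw [Metric.tendsto_nhds]
      intro e he
      filter_upwards [hmt.eventually (hδ e he)] with i hi
      rw [Real.dist_eq, sub_zero, abs_lt]
      have : rho (z (m i)) < 0 := hzm (m i) (hm00 i)
      constructor <;> linarith
    exact tendsto_nhds_unique h1 h2
  have hpf : p ∈ frontier Om := by
    rw [frontier, isOpen_Om.interior_eq]
    refine ⟨mem_closure_of_tendsto hlim (Eventually.of_forall fun i => hzm _ (hm00 i)), ?_⟩
    intro h
    have : rho p < 0 := h
    linarith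
  refine ⟨p, hpf, ?_⟩
  rw [Metric.tendsto_nhds]
  intro ε hε
  obtain ⟨η, hη0, hη1, hηev⟩ := records_close hK hC0 hC (w := fun i => z (m i))
    (fun i => hzm _ (hm00 i)) hp0 hlim hDm (fun i => by
      filter_upwards [eventually_ge_atTop i] with j hj
      exact hrec (m i) (m j) (hm0 i) (hmono hj)) (show 0 < ε / 4 by positivity)
  obtain ⟨τ, hτ⟩ : ∃ τ : ℝ, τ = C - Real.log η := ⟨_, rfl⟩
  have hτ0 : 0 ≤ τ := by
    have : Real.log η ≤ 0 := Real.log_nonpos hη0.le (by linarith)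
    rw [hτ]; linarith
  obtain ⟨δ₀, hδ₀, hball⟩ := small_balls hK (τ + 1) (ε / 4) (by positivity)
  filter_upwards [hδ δ₀ hδ₀, eventually_ge_atTop t₀] with l hl hl0
  have hlm : z l ∈ Om := hzm l (by linarith)
  have e1 : ∀ᶠ i in atTop, τ + 1 ≤ kob Om z00 (z (m i)) :=
    hDm.eventually (eventually_ge_atTop _)
  have e2 : ∀ᶠ i in atTop, dist (z (m i)) p < ε / 4 :=
    (Metric.tendsto_nhds.1 hlim) _ (by positivity)
  have e3 : ∀ᶠ i in atTop, l ≤ m i := hmt.eventually (eventually_ge_atTop _)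
  obtain ⟨i, hi1, hi2, hi3, hi4⟩ := (e1.and (e2.and (e3.and hηev))).exists
  obtain ⟨a, ha, ha1, ha2⟩ := hK.split (z l) hlm (z (m i)) (hzm _ (hm00 i)) (τ + 1)
    (kob Om z00 (z (m i)) - τ) (by linarith) (by linarith) (by
      have := hrec l (m i) hl0 hi3
      linarith)
  have h1 := hball (z l) hlm hl a ha ha1.le
  have h2 : ‖a - z (m i)‖ < ε / 4 := by
    apply hi4 a ha (kob Om z00 (z (m i)) - τ) (by linarith) (by linarith) ha2
    have h3 := exp_depth hC (hzm (m i) (hm00 i))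
    have h4 : Real.exp (2 * (kob Om z00 (z (m i)) - τ)) =
        Real.exp (2 * kob Om z00 (z (m i))) * Real.exp (-(2 * τ)) := by
      rw [← Real.exp_add]; congr 1; ring
    have h5 : Real.exp (2 * C) * Real.exp (-(2 * τ)) = η ^ 2 := by
      rw [← Real.exp_add, hτ]
      have : 2 * C + -(2 * (C - Real.log η)) = Real.log η + Real.log η := by ring
      rw [this, Real.exp_add, Real.exp_log hη0]; ring
    rw [h4, ← h5]
    calc _ = (Real.exp (2 * kob Om z00 (z (m i))) * (- rho (z (m i))))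
          * Real.exp (-(2 * τ)) := by ring
      _ ≤ _ := mul_le_mul_of_nonneg_right h3 (Real.exp_pos _).le
  have h6 : dist (z l) p ≤ ‖a - z l‖ + ‖a - z (m i)‖ + dist (z (m i)) p := by
    have h7 := dist_triangle4 (z l) a (z (m i)) p
    rw [dist_comm (z l) a, dist_eq_norm a (z l), dist_eq_norm a (z (m i))] at h7
    exact h7
  linarith

end Pool.Agent.H214.Vis
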