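import Pool.Agent.H214.Kappa

/-!
# The local lower bound of the Kobayashi distance by the Kobayashi–Royden metric
-/

set_option autoImplicit false

namespace Pool.Agent.H214.Vis

open Metric Set Filter Topology
open Pool.TH332.DW Pool.TH332.DW.TH416

variable {E : Type*} [NormedAddCommGroup E] [NormedSpace ℂ E] {Ω : Set E}

theorem hasDerivAt_ath {x : ℝ} (h0 : -1 < x) (h1 : x < 1) :
    HasDerivAt ath (1 / (1 - x ^ 2)) x := by
  have hp : 0 < 1 + x := by linarith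
  have hm : 0 < 1 - x := by linarith
  have h2 : HasDerivAt (fun r : ℝ => (1 + r) / (1 - r))
      ((1 * (1 - x) - (1 + x) * (-1)) / (1 - x) ^ 2) x :=
    ((hasDerivAt_id x).const_add 1).div ((hasDerivAt_id x).const_sub 1) hm.ne'
  have h3 := (h2.log (div_pos hp hm).ne').const_mul (1 / 2 : ℝ)
  have h4 : (1 / 2 : ℝ) * ((1 * (1 - x) - (1 + x) * (-1)) / (1 - x) ^ 2 / ((1 + x) / (1 - x)))
      = 1 / (1 - x ^ 2) := by
    have h5 : (1 - x ^ 2) ≠ 0 := by nlinarith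
    field_simp
    ring
  rw [h4] at h3
  exact h3

theorem hasDerivAt_mob (a : ℂ) : HasDerivAt (mob a) (1 - (starRingEnd ℂ) a * a) 0 := by
  have h1 : HasDerivAt (fun z : ℂ => (z + a) / (1 + (starRingEnd ℂ) a * z))
      ((1 * (1 + (starRingEnd ℂ) a * 0) - (0 + a) * ((starRingEnd ℂ) a * 1)) /
        (1 + (starRingEnd ℂ) a * 0) ^ 2) 0 :=
    ((hasDerivAt_id (0 : ℂ)).add_const a).div
      (((hasDerivAt_id (0 : ℂ)).const_mul ((starRingEnd ℂ) a)).const_add 1) (by simp)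
  have h2 : ((1 * (1 + (starRingEnd ℂ) a * 0) - (0 + a) * ((starRingEnd ℂ) a * 1)) /
        (1 + (starRingEnd ℂ) a * 0) ^ 2) = 1 - (starRingEnd ℂ) a * a := by
    simp; ring
  rw [h2] at h1
  exact h1

theorem comp_point {ψ : ℂ → E} (hψ : DifferentiableOn ℂ ψ (ball 0 1))
    (hm : MapsTo ψ (ball 0 1) Ω) {x : ℝ} (hx0 : -1 < x) (hx1 : x < 1) :
    Comp Ω (ψ (x : ℂ)) (deriv ψ (x : ℂ)) (1 / (1 - x ^ 2)) := by
  have hn : ‖(x : ℂ)‖ < 1 := by rw [Complex.norm_real, Real.norm_eq_abs, abs_lt]; exact ⟨hx0, hx1⟩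
  have hx2 : 0 < 1 - x ^ 2 := by nlinarith
  refine ⟨by positivity, ψ ∘ mob (x : ℂ), hψ.comp (differentiableOn_mob hn) (mapsTo_mob hn),
    hm.comp (mapsTo_mob hn), ?_, ?_⟩
  · simp only [Function.comp, mob_zero]
  · have h1 : HasDerivAt ψ (deriv ψ (mob (x : ℂ) 0)) (mob (x : ℂ) 0) := by
      rw [mob_zero]
      exact (hψ.differentiableAt (isOpen_ball.mem_nhds (mem_ball_iff.2 hn))).hasDerivAt
    have h2 := h1.scomp (0 : ℂ) (hasDerivAt_mob (x : ℂ))
    rw [h2.deriv, mob_zero, Complex.conj_ofReal, smul_smul]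
    have h3 : ((1 / (1 - x ^ 2) : ℝ) : ℂ) * (1 - (x : ℂ) * (x : ℂ)) = 1 := by
      have h4 : (1 - (x : ℂ) * (x : ℂ)) = ((1 - x ^ 2 : ℝ) : ℂ) := by push_cast; ring
      rw [h4, ← Complex.ofReal_mul, one_div, inv_mul_cancel₀ hx2.ne', Complex.ofReal_one]
    rw [h3, one_smul]

/-- One disc. -/
theorem one_disc {ψ : ℂ → E} (hψ : DifferentiableOn ℂ ψ (ball 0 1))
    (hm : MapsTo ψ (ball 0 1) Ω) {r : ℝ} (hr0 : 0 ≤ r) (hr1 : r < 1) (g : E →L[ℝ] ℝ) {M : ℝ}
    (hM : ∀ x : ℝ, 0 ≤ x → x ≤ r → ∀ v α, Comp Ω (ψ (x : ℂ)) v α → g v ≤ M * α) :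
    g (ψ (r : ℂ) - ψ 0) ≤ M * ath r := by
  have hder : ∀ x : ℝ, -1 < x → x < 1 → HasDerivAt (fun x : ℝ => M * ath x - g (ψ (x : ℂ)))
      (M * (1 / (1 - x ^ 2)) - g (deriv ψ (x : ℂ))) x := by
    intro x hx0 hx1
    have hn : ‖(x : ℂ)‖ < 1 := by
      rw [Complex.norm_real, Real.norm_eq_abs, abs_lt]; exact ⟨hx0, hx1⟩
    have h1 : HasDerivAt ψ (deriv ψ (x : ℂ)) (x : ℂ) :=
      (hψ.differentiableAt (isOpen_ball.mem_nhds (mem_ball_iff.2 hn))).hasDerivAt
    have h2 : HasDerivAt (fun x : ℝ => ψ (x : ℂ)) (deriv ψ (x : ℂ)) x := by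
      have h0 := HasDerivAt.scomp x h1 (Complex.ofRealCLM.hasDerivAt (x := x))
      have h00 : HasDerivAt (ψ ∘ Complex.ofReal) (deriv ψ (x : ℂ)) x := by simpa using h0
      exact h00
    have h3 : HasDerivAt (fun x : ℝ => g (ψ (x : ℂ))) (g (deriv ψ (x : ℂ))) x :=
      g.hasFDerivAt.comp_hasDerivAt x h2
    exact ((hasDerivAt_ath hx0 hx1).const_mul M).sub h3
  have hmono : MonotoneOn (fun x : ℝ => M * ath x - g (ψ (x : ℂ))) (Icc 0 r) := by
    apply monotoneOn_of_deriv_nonneg (convex_Icc 0 r)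
    · intro x hx
      exact (hder x (by linarith [hx.1]) (by linarith [hx.2])).continuousAt.continuousWithinAt
    · intro x hx
      rw [interior_Icc] at hx
      exact (hder x (by linarith [hx.1]) (by linarith [hx.2])).differentiableAt.differentiableWithinAt
    · intro x hx
      rw [interior_Icc] at hx
      rw [(hder x (by linarith [hx.1]) (by linarith [hx.2])).deriv]
      have h1 := hM x hx.1.le hx.2.le _ _ (comp_point hψ hm (by linarith [hx.1])
        (by linarith [hx.2]))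
      linarith
  have h := hmono (left_mem_Icc.2 hr0) (right_mem_Icc.2 hr0) hr0
  simp only [Complex.ofReal_zero, H111.ath_zero, mul_zero, zero_sub] at h
  rw [map_sub]
  linarith

/-- The estimate along a chain. -/
theorem chain_est (hc : Convex ℝ Ω) (ho : IsOpen Ω) {z : E} (hz : z ∈ Ω) (g : E →L[ℝ] ℝ)
    {M δ : ℝ}
    (hM : ∀ y ∈ Ω, kob Ω z y ≤ δ → ∀ v α, Comp Ω y v α → g v ≤ M * α) {y w : E} {L : ℝ}
    (h : DiscChain Ω y w L) (hy : kob Ω z y + L ≤ δ) : g (w - y) ≤ M * L := by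
  have hK := kobFacts hc ho
  induction h with
  | nil hz => simp
  | @cons w L φ a b hφ hm ha hb h ih =>
    have ha' := mem_ball_iff.1 ha
    have hb' := mem_ball_iff.1 hb
    have hL0 : 0 ≤ L := h.mem.2.2
    have hkab : kob Ω (φ a) (φ b) ≤ pdist a b := kob_le_of_chain (H111.single φ a b hφ hm ha hb)
    have htri : kob Ω z (φ b) ≤ kob Ω z (φ a) + kob Ω (φ a) (φ b) :=
      hK.triangle z hz _ (hm ha) _ (hm hb)
    have h1 := ih (by linarith)
    -- the disc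
    set β : ℂ := mob (-a) b with hβ
    have hβ1 : ‖β‖ < 1 := norm_mob_lt (by rwa [norm_neg]) hb'
    have hβb : mob a β = b := mob_neg_mob ha' hb'
    have hr : ‖β‖ = pm a b := norm_mob_neg a b
    obtain ⟨e, he, hβe⟩ : ∃ e : ℂ, ‖e‖ = 1 ∧ β = ((‖β‖ : ℝ) : ℂ) * e := by
      by_cases h0 : β = 0
      · exact ⟨1, norm_one, by rw [h0]; simp⟩
      · have hn : ‖β‖ ≠ 0 := norm_ne_zero_iff.2 h0
        refine ⟨((‖β‖ : ℝ) : ℂ)⁻¹ * β, ?_, ?_⟩
        · rw [norm_mul, norm_inv, Complex.norm_real, norm_norm, inv_mul_cancel₀ hn]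
        · rw [mul_inv_cancel_left₀]
          exact_mod_cast hn
    have hrot : MapsTo (fun ζ : ℂ => ζ * e) (ball 0 1) (ball 0 1) := by
      intro ζ hζ
      rw [mem_ball_iff] at hζ ⊢
      rw [norm_mul, he, mul_one]; exact hζ
    have hψd : DifferentiableOn ℂ (fun ζ : ℂ => φ (mob a (ζ * e))) (ball 0 1) := by
      have h2 : DifferentiableOn ℂ (fun ζ : ℂ => mob a (ζ * e)) (ball 0 1) :=
        (differentiableOn_mob ha').comp (by fun_prop) hrot
      exact hφ.comp h2 (fun ζ hζ => mapsTo_mob ha' (hrot hζ))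
    have hψm : MapsTo (fun ζ : ℂ => φ (mob a (ζ * e))) (ball 0 1) Ω :=
      fun ζ hζ => hm (mapsTo_mob ha' (hrot hζ))
    have hpd : pdist a b = ath ‖β‖ := by rw [hr]; rfl
    have h2 := one_disc hψd hψm (norm_nonneg β) hβ1 g (M := M) (by
      intro x hx0 hxr v α hcomp
      have hxn : ((x : ℝ) : ℂ) ∈ ball (0 : ℂ) 1 := by
        rw [mem_ball_iff, Complex.norm_real, Real.norm_of_nonneg hx0]; linarith
      have h3 : kob Ω (φ (mob a (0 * e))) (φ (mob a ((x : ℂ) * e))) ≤ pdist 0 (x : ℂ) :=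
        kob_le_of_chain (H111.single (fun ζ : ℂ => φ (mob a (ζ * e))) 0 (x : ℂ) hψd hψm
          (mem_ball_self one_pos) hxn)
      rw [H111.pdist_zero_left hx0, zero_mul, mob_zero] at h3
      have h4 : ath x ≤ ath ‖β‖ := by
        unfold ath
        apply mul_le_mul_of_nonneg_left _ (by norm_num)
        apply Real.log_le_log
        · apply div_pos <;> linarith
        · apply div_le_div₀ <;> linarith
      have h5 := hK.triangle z hz _ (hm ha) _ (hψm hxn)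
      refine hM _ (hψm hxn) ?_ v α hcomp
      simp only
      linarith)
    simp only [zero_mul, mob_zero] at h2
    rw [← hβe, hβb, ← hpd] at h2
    have h3 : w - φ a = (w - φ b) + (φ b - φ a) := by abel
    rw [h3, map_add]
    have h4 : M * (pdist a b + L) = M * L + M * pdist a b := by ring
    linarith

/-- Euclidean lower bound for the Kobayashi distance of a bounded convex domain. -/
theorem norm_le_of_kob (hK : KobFacts Ω) {B : ℝ} (hb : ∀ z ∈ Ω, ‖z‖ < B) {z w : E}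
    (hz : z ∈ Ω) (hw : w ∈ Ω) : ‖w - z‖ ≤ 2 * B * (Real.exp (2 * kob Ω z w) - 1) := by
  obtain ⟨l, hl1, hl2⟩ := exists_dual_vector'' ℂ (w - z)
  have h1 : ∀ x ∈ Ω, ‖l x‖ < B := by
    intro x hx
    have := l.le_opNorm x
    have h2 : ‖l‖ * ‖x‖ ≤ 1 * ‖x‖ := mul_le_mul_of_nonneg_right hl1 (norm_nonneg _)
    linarith [hb x hx]
  have h2 := hK.half (fun x => l x + (B : ℂ)) (by fun_prop) (by
    intro x hx
    rw [Complex.add_re, Complex.ofReal_re]
    have := (abs_le.1 (Complex.abs_re_le_norm (l x))).1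
    linarith [h1 x hx]) z hz w hw
  have h3 : (l w + (B : ℂ)) - (l z + (B : ℂ)) = l (w - z) := by rw [map_sub]; ring
  rw [h3, hl2] at h2
  have h4 : ‖((‖w - z‖ : ℝ) : ℂ)‖ = ‖w - z‖ := by
    rw [Complex.norm_real, norm_norm]
  have h5 : (l z + (B : ℂ)).re ≤ 2 * B := by
    rw [Complex.add_re, Complex.ofReal_re]
    have := (abs_le.1 (Complex.abs_re_le_norm (l z))).2
    linarith [h1 z hz]
  have h6 : 0 ≤ Real.exp (2 * kob Ω z w) - 1 := by
    have := hK.nonneg z w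
    have : 1 ≤ Real.exp (2 * kob Ω z w) := Real.one_le_exp (by linarith)
    linarith
  have h7 : ‖w - z‖ ≤ (Real.exp (2 * kob Ω z w) - 1) * (l z + (B : ℂ)).re := by
    rw [← h4]; exact h2
  nlinarith [mul_le_mul_of_nonneg_left h5 h6]

/-- The local lower bound. -/
theorem kappa_le_kob (hc : Convex ℝ Ω) (ho : IsOpen Ω) (hbd : Bornology.IsBounded Ω) {z : E}
    (hz : z ∈ Ω) {ε : ℝ} (hε : 0 < ε) (hε1 : ε < 1) :
    ∃ δ : ℝ, 0 < δ ∧ ∀ w ∈ Ω, kob Ω z w < δ → kappa Ω z (w - z) ≤ 1 / (1 - ε) * kob Ω z w := by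
  have hK := kobFacts hc ho
  obtain ⟨r, hr, hb⟩ := Metric.isOpen_iff.1 ho z hz
  obtain ⟨B0, hB0⟩ := isBounded_iff_forall_norm_le.1 hbd
  obtain ⟨B, hB⟩ : ∃ B : ℝ, B = max B0 0 + 1 := ⟨_, rfl⟩
  have hBpos : 0 < B := by rw [hB]; have := le_max_right B0 0; linarith
  have hBb : ∀ x ∈ Ω, ‖x‖ < B := by
    intro x hx
    have := hB0 x hx
    have h2 := le_max_left B0 0
    rw [hB]; linarith
  -- choose δ
  have hcont : Tendsto (fun δ : ℝ => 2 * B * (Real.exp (2 * δ) - 1)) (𝓝 0)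
      (𝓝 (2 * B * (Real.exp (2 * 0) - 1))) := by
    have : Continuous fun δ : ℝ => 2 * B * (Real.exp (2 * δ) - 1) := by fun_prop
    exact this.tendsto 0
  have h0 : 2 * B * (Real.exp (2 * 0) - 1) < ε * r := by
    have : 0 < ε * r := by positivity
    simpa using this
  obtain ⟨δ, hδ0, hδ⟩ : ∃ δ : ℝ, 0 < δ ∧ 2 * B * (Real.exp (2 * δ) - 1) < ε * r := by
    have h1 := hcont.eventually (gt_mem_nhds h0)
    obtain ⟨η, hη, h2⟩ := Metric.eventually_nhds_iff.1 h1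
    refine ⟨η / 2, by positivity, h2 ?_⟩
    rw [dist_zero_right, Real.norm_of_nonneg (by positivity)]
    linarith
  refine ⟨δ, hδ0, fun w hw hk => ?_⟩
  obtain ⟨g, hg1, hg2⟩ := exists_functional hc ho hz (w - z)
  have hM : ∀ y ∈ Ω, kob Ω z y ≤ δ → ∀ v α, Comp Ω y v α → g v ≤ 1 / (1 - ε) * α := by
    intro y hy hky v α hcomp
    have h1 := norm_le_of_kob hK hBb hz hy
    have h2 : Real.exp (2 * kob Ω z y) ≤ Real.exp (2 * δ) := Real.exp_le_exp.2 (by linarith)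
    have h3 : ‖y - z‖ < ε * r := by
      have : 2 * B * (Real.exp (2 * kob Ω z y) - 1) ≤ 2 * B * (Real.exp (2 * δ) - 1) :=
        mul_le_mul_of_nonneg_left (by linarith) (by positivity)
      linarith
    have h4 := kappa_le (hcomp.move hc hε hε1 hb h3)
    have h5 := hg2 v
    rw [one_div, inv_mul_eq_div]
    linarith
  rw [← hg1]
  have h1 : ∀ η : ℝ, 0 < η → η < δ - kob Ω z w →
      g (w - z) ≤ 1 / (1 - ε) * (kob Ω z w + η) := by
    intro η hη hη2
    obtain ⟨L, hL, hL'⟩ := exists_chain_lt hc ho hz hw (T := kob Ω z w + η) (by linarith)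
    have h2 := chain_est hc ho hz g hM hL' (by rw [hK.self z hz]; linarith)
    have h3 : 0 < 1 / (1 - ε) := by
      have : 0 < 1 - ε := by linarith
      positivity
    have h4 := mul_le_mul_of_nonneg_left hL.le h3.le
    linarith
  have h2 : Tendsto (fun η : ℝ => 1 / (1 - ε) * (kob Ω z w + η)) (𝓝[>] 0)
      (𝓝 (1 / (1 - ε) * (kob Ω z w + 0))) := by
    have hcont : Continuous fun η : ℝ => 1 / (1 - ε) * (kob Ω z w + η) := by fun_prop
    exact (hcont.tendsto 0).mono_left nhdsWithin_le_nhds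
  rw [add_zero] at h2
  refine ge_of_tendsto h2 ?_
  have h3 : ∀ᶠ η : ℝ in 𝓝[>] 0, η < δ - kob Ω z w :=
    (nhdsWithin_le_nhds) (gt_mem_nhds (by linarith))
  filter_upwards [self_mem_nhdsWithin, h3] with η hη hη2 using h1 η hη hη2

end Pool.Agent.H214.Vis
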