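import Pool.Agent.H214.Land
import Pool.Graph.R_seed8.TH332.DW.Witness

/-!
# `Om` is not visible
-/

set_option autoImplicit false

namespace Pool.Agent.H214.Vis

open Metric Set Filter Topology MeasureTheory
open Pool.TH332.DW Pool.TH332.DW.TH416

theorem proper_general (hK : KobFacts Om) {z : ℂ × ℂ} (hz : z ∈ Om) (R : ℝ) :
    ∃ K : Set (ℂ × ℂ), IsCompact K ∧ K ⊆ Om ∧ ∀ x ∈ Om, kob Om z x ≤ R → x ∈ K := by
  obtain ⟨K, h1, h2, h3⟩ := proper_Om hK (kob Om z00 z + R)
  refine ⟨K, h1, h2, fun x hx hR => h3 x hx ?_⟩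
  have := hK.triangle z00 z00_mem z hz x hx
  linarith

theorem exists_seg {z w : ℂ × ℂ} (hz : z ∈ Om) (hw : w ∈ Om) :
    ∃ γ : ℝ → ℂ × ℂ, IsGeodesicSegment Om γ 0 1 ∧ γ 0 = z ∧ γ 1 = w :=
  exists_geodesicSegment convex_Om isOpen_Om isBounded_Om
    (fun _ hx R => proper_general (kobFacts convex_Om isOpen_Om) hx R) hz hw

theorem not_stronglyVisible (hK : KobFacts Om) {z₀ p q : ℂ × ℂ} (hz₀ : z₀ ∈ Om)
    {u : ℕ → ℂ × ℂ} (hu : ∀ n, u n ∈ Om) (hup : Tendsto u atTop (𝓝 p))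
    (hq : q ∈ closure (horosphere Om z₀ u 1)) (hqf : q ∈ frontier Om) :
    ¬ StronglyVisible Om q p := by
  rintro ⟨K, hKc, hKO, hvis⟩
  obtain ⟨x, hx, hxq⟩ := mem_closure_iff_seq_limit.1 hq
  have hxO : ∀ n, x n ∈ Om := fun n => (hx n).1
  -- all geodesics joining `x m` and `u n` meet `K` for large `m, n`
  have hMN : ∃ N : ℕ, ∀ m n, N ≤ m → N ≤ n → ∀ γ : ℝ → ℂ × ℂ, IsGeodesicSegment Om γ 0 1 →
      γ 0 = x m → γ 1 = u n → ∃ s ∈ Ioo (0 : ℝ) 1, γ s ∈ K := by
    by_contra hcon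
    push Not at hcon
    choose m n hm hn γ hγ hγ0 hγ1 hno using hcon
    have hmt : Tendsto m atTop atTop := tendsto_atTop_mono hm tendsto_id
    have hnt : Tendsto n atTop atTop := tendsto_atTop_mono hn tendsto_id
    have h1 := hvis γ hγ (by simp only [hγ0]; exact hxq.comp hmt)
      (by simp only [hγ1]; exact hup.comp hnt)
    obtain ⟨k, s, hs, hsK⟩ := h1.exists
    exact hno k s hs hsK
  obtain ⟨N, hN⟩ := hMN
  obtain ⟨C, hC0, hC⟩ := kob_bddOn_compact isOpen_Om hK hz₀ hKc hKO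
  -- hence the Gromov product is bounded
  have hlow : ∀ m n, N ≤ m → N ≤ n →
      kob Om z₀ (x m) + kob Om z₀ (u n) - 2 * C ≤ kob Om (x m) (u n) := by
    intro m n hm hn
    obtain ⟨γ, hγ, h0, h1⟩ := exists_seg (hxO m) (hu n)
    obtain ⟨s, hs, hsK⟩ := hN m n hm hn γ hγ h0 h1
    have hadd := hγ.add (s := 0) (t := s) (u := 1) le_rfl hs.1.le hs.2.le le_rfl
    rw [h0, h1] at hadd
    have h2 := hC (γ s) hsK
    have hsO := hKO hsK
    have h3 := hK.triangle z₀ hz₀ (γ s) hsO (x m) (hxO m)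
    have h4 := hK.triangle z₀ hz₀ (γ s) hsO (u n) (hu n)
    rw [hK.comm (γ s) (x m)] at h3
    linarith
  -- but the points `x m` are in the horosphere
  have hbound : ∀ m, N ≤ m → kob Om z₀ (x m) ≤ 2 * C := by
    intro m hm
    by_contra hcon
    push Not at hcon
    have h1 := (hx m).2
    rw [Real.log_one, mul_zero] at h1
    have hbdd : IsBoundedUnder (· ≤ ·) atTop
        (fun n => kob Om (x m) (u n) - kob Om z₀ (u n)) := by
      refine isBoundedUnder_of ⟨kob Om (x m) z₀, fun n => ?_⟩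
      have := hK.triangle (x m) (hxO m) z₀ hz₀ (u n) (hu n)
      linarith
    have h2 : kob Om z₀ (x m) - 2 * C ≤
        limsup (fun n => kob Om (x m) (u n) - kob Om z₀ (u n)) atTop := by
      apply le_limsup_of_frequently_le _ hbdd
      apply Eventually.frequently
      filter_upwards [eventually_ge_atTop N] with n hn
      have := hlow m n hm hn
      linarith
    linarith
  -- contradiction with properness
  obtain ⟨K', hK'c, hK'O, hK'⟩ := proper_general hK hz₀ (2 * C)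
  have h1 : q ∈ K' := by
    apply hK'c.isClosed.mem_of_tendsto hxq
    filter_upwards [eventually_ge_atTop N] with m hm
    exact hK' (x m) (hxO m) (hbound m hm)
  rw [isOpen_Om.frontier_eq] at hqf
  exact hqf.2 (hK'O h1)

theorem not_visible_Om : ¬ Visible Om := by
  intro hvis
  have hK := kobFacts convex_Om isOpen_Om
  obtain ⟨z₀, hz₀, u, hu, p, hp, hup, -, q, hq, q', hq', hqq'⟩ := two_points_Om hK
  by_cases h : q = p
  · exact not_stronglyVisible hK hz₀ hu hup hq'.1 hq'.2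
      (hvis q' hq'.2 p hp (fun h' => hqq' (h.trans h'.symm)))
  · exact not_stronglyVisible hK hz₀ hu hup hq.1 hq.2 (hvis q hq.2 p hp h)

end Pool.Agent.H214.Vis
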