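import Pool.Agent.H214.NonVis

/-!
# Existence of geodesic rays
-/

set_option autoImplicit false

namespace Pool.Agent.H214.Vis

open Metric Set Filter Topology MeasureTheory
open Pool.TH332.DW Pool.TH332.DW.TH416

/-- From every point of a bounded convex domain whose Kobayashi distance is proper and unbounded
there starts a geodesic ray. -/
theorem exists_geodesicRay {Ω : Set (ℂ × ℂ)} (hc : Convex ℝ Ω) (ho : IsOpen Ω)
    (hbd : Bornology.IsBounded Ω)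
    (hprop : ∀ z ∈ Ω, ∀ R : ℝ, ∃ K : Set (ℂ × ℂ), IsCompact K ∧ K ⊆ Ω ∧
      ∀ x ∈ Ω, kob Ω z x ≤ R → x ∈ K) {z : ℂ × ℂ} (hz : z ∈ Ω)
    (hunb : ∀ R : ℝ, ∃ w ∈ Ω, R < kob Ω z w) :
    ∃ γ : ℝ → ℂ × ℂ, IsGeodesicRay Ω γ ∧ γ 0 = z := by
  have hK := kobFacts hc ho
  choose w hw hwR using fun n : ℕ => hunb n
  have hpath : ∀ n : ℕ, ∃ σ : ℝ → ℂ × ℂ, (∀ t, 0 ≤ t → t ≤ 1 → σ t ∈ Ω) ∧ σ 0 = z ∧ σ 1 = w n ∧
      ∀ s t : ℝ, 0 ≤ s → s ≤ t → t ≤ 1 → kob Ω (σ s) (σ t) = kob Ω z (w n) * (t - s) := by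
    intro n
    obtain ⟨K, hKc, hKΩ, hKR⟩ := hprop z hz (kob Ω z (w n) + 1)
    exact exists_path hK ho hz (hw n) hKc hKΩ hKR
  choose σ hσm hσ0 hσ1 hσk using hpath
  obtain ⟨L, hL⟩ : ∃ L : ℕ → ℝ, L = fun n => kob Ω z (w n) := ⟨_, rfl⟩
  have hLn : ∀ n : ℕ, (n : ℝ) < L n := by intro n; rw [hL]; exact hwR n
  have hL0 : ∀ n : ℕ, 0 < L n := fun n => lt_of_le_of_lt (Nat.cast_nonneg n) (hLn n)
  obtain ⟨τ, hτ⟩ : ∃ τ : ℕ → ℝ → ℂ × ℂ, τ = fun n t => σ n (t / L n) := ⟨_, rfl⟩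
  have hdiv : ∀ (n : ℕ) (t : ℝ), 0 ≤ t → t ≤ n → 0 ≤ t / L n ∧ t / L n ≤ 1 := by
    intro n t h0 h1
    refine ⟨div_nonneg h0 (hL0 n).le, ?_⟩
    rw [div_le_one (hL0 n)]
    linarith [hLn n]
  have hτm : ∀ (n : ℕ) (t : ℝ), 0 ≤ t → t ≤ n → τ n t ∈ Ω := by
    intro n t h0 h1
    rw [hτ]
    exact hσm n _ (hdiv n t h0 h1).1 (hdiv n t h0 h1).2
  have hτk : ∀ (n : ℕ) (s t : ℝ), 0 ≤ s → s ≤ t → t ≤ n → kob Ω (τ n s) (τ n t) = t - s := by
    intro n s t h0 h1 h2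
    have h3 := hσk n (s / L n) (t / L n) (hdiv n s h0 (by linarith)).1
      (div_le_div_of_nonneg_right h1 (hL0 n).le) (hdiv n t (by linarith) h2).2
    rw [hτ]
    simp only
    rw [h3]
    have h4 : kob Ω z (w n) = L n := by rw [hL]
    rw [h4]
    have := (hL0 n).ne'
    field_simp
  have hτ0 : ∀ n, τ n 0 = z := by
    intro n; rw [hτ]; simp only [zero_div]; exact hσ0 n
  have hatTop : (hyperfilter ℕ : Filter ℕ) ≤ atTop := by
    rw [← Nat.cofinite_eq_atTop]; exact hyperfilter_le_cofinite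
  have hev : ∀ t : ℝ, ∀ᶠ n : ℕ in (hyperfilter ℕ : Filter ℕ), t ≤ n := by
    intro t
    exact hatTop (tendsto_natCast_atTop_atTop.eventually (eventually_ge_atTop t))
  have hU : ∀ t : ℝ, ∃ x : ℂ × ℂ, 0 ≤ t → (x ∈ Ω ∧
      Tendsto (fun n : ℕ => τ n t) (hyperfilter ℕ) (𝓝 x)) := by
    intro t
    by_cases ht : 0 ≤ t
    · obtain ⟨K, hKc, hKΩ, hKR⟩ := hprop z hz t
      obtain ⟨x, hx, hx2⟩ := hKc.ultrafilter_le_nhds
        ((hyperfilter ℕ).map (fun n : ℕ => τ n t)) (by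
          rw [Ultrafilter.coe_map, le_principal_iff, mem_map]
          filter_upwards [hev t] with n hn
          refine hKR _ (hτm n t ht hn) ?_
          have h1 := hτk n 0 t le_rfl ht hn
          rw [hτ0, sub_zero] at h1
          exact h1.le)
      exact ⟨x, fun _ => ⟨hKΩ hx, hx2⟩⟩
    · exact ⟨0, fun h0 => absurd h0 ht⟩
  choose γ hγ using hU
  have hγm : ∀ t, 0 ≤ t → γ t ∈ Ω := fun t ht => (hγ t ht).1
  have hγk : ∀ s t : ℝ, 0 ≤ s → s ≤ t → kob Ω (γ s) (γ t) = 1 * (t - s) := by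
    intro s t h0 h1
    have h2 : 0 ≤ t := h0.trans h1
    have e1 := kob_tendsto_zero hK ho (hγm s h0) (hγ s h0).2
    have e2 := kob_tendsto_zero hK ho (hγm t h2) (hγ t h2).2
    have e3 : Tendsto (fun n : ℕ => kob Ω (γ s) (τ n s) + (t - s) + kob Ω (γ t) (τ n t))
        (hyperfilter ℕ : Filter ℕ) (𝓝 (0 + (t - s) + 0)) := (e1.add_const _).add e2
    have e4 : Tendsto (fun n : ℕ => kob Ω (γ s) (γ t) + kob Ω (γ s) (τ n s)
        + kob Ω (γ t) (τ n t))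
        (hyperfilter ℕ : Filter ℕ) (𝓝 (kob Ω (γ s) (γ t) + 0 + 0)) := (e1.const_add _).add e2
    rw [one_mul]
    apply le_antisymm
    · rw [zero_add, add_zero] at e3
      refine ge_of_tendsto e3 ?_
      filter_upwards [hev t] with n hn
      have m1 := hτm n s h0 (by linarith)
      have m2 := hτm n t h2 hn
      have t1 := hK.triangle _ (hγm s h0) _ m1 _ (hγm t h2)
      have t2 := hK.triangle _ m1 _ m2 _ (hγm t h2)
      rw [hK.comm (τ n t) (γ t)] at t2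
      have t3 := hτk n s t h0 h1 hn
      linarith
    · rw [add_zero, add_zero] at e4
      refine ge_of_tendsto e4 ?_
      filter_upwards [hev t] with n hn
      have m1 := hτm n s h0 (by linarith)
      have m2 := hτm n t h2 hn
      have t1 := hK.triangle _ m1 _ (hγm s h0) _ m2
      have t2 := hK.triangle _ (hγm s h0) _ (hγm t h2) _ m2
      rw [hK.comm (τ n s) (γ s)] at t1
      have t3 := hτk n s t h0 h1 hn
      linarith
  have hγ0 : γ 0 = z := by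
    have h1 := (hγ 0 le_rfl).2
    simp only [hτ0] at h1
    exact tendsto_nhds_unique h1 tendsto_const_nhds
  refine ⟨γ, ⟨fun T hT => ?_, ?_⟩, hγ0⟩
  · exact isGeodesicSegment_of_speed hc ho hbd hT zero_le_one (fun t h0 _ => hγm t h0)
      (fun s t h0 h1 _ => hγk s t h0 h1)
  · refine tendsto_id.congr' ?_
    filter_upwards [eventually_ge_atTop (0 : ℝ)] with t ht
    rw [hγk 0 t le_rfl ht]
    simp

theorem unbounded_Om (hK : KobFacts Om) {z : ℂ × ℂ} (hz : z ∈ Om) (R : ℝ) :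
    ∃ w ∈ Om, R < kob Om z w := by
  by_contra hcon
  push Not at hcon
  obtain ⟨K, hKc, hKO, hKR⟩ := proper_general hK hz R
  have h1 : Om = K := Subset.antisymm (fun x hx => hKR x hx (hcon x hx)) hKO
  obtain ⟨_, _, _, _, p, hp, _⟩ := two_points_Om hK
  have h2 : IsClosed Om := by rw [h1]; exact hKc.isClosed
  rw [isOpen_Om.frontier_eq, h2.closure_eq] at hp
  exact hp.2 hp.1

theorem exists_ray {z : ℂ × ℂ} (hz : z ∈ Om) : ∃ γ : ℝ → ℂ × ℂ, IsGeodesicRay Om γ ∧ γ 0 = z :=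
  exists_geodesicRay convex_Om isOpen_Om isBounded_Om
    (fun _ hx R => proper_general (kobFacts convex_Om isOpen_Om) hx R) hz
    (unbounded_Om (kobFacts convex_Om isOpen_Om) hz)

end Pool.Agent.H214.Vis
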